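import Pool.Agent.H95.FJ.Defs

/-!
# Part KEY of crew FJ
-/

open MvPolynomial

namespace H72.FJ
open H95.FG H95.FI H95.FJ

theorem t_KEY (hKEYA : S_KEYA) : S_KEY := by
  intro n r f g hli hmem
  have hc : ∀ k : Fin n, ∃ c : Fin n × Fin r → ℂ,
      ∑ x, c x • (X x.1 * f x.2 : Pn n) = X k * g := fun k =>
    (Submodule.mem_span_range_iff_exists_fun ℂ).1 (hmem k)
  choose c hc using hc
  refine hKEYA n r (Fin.cons LinearMap.id
    (fun a => -(Matrix.mulVecLin (Matrix.of fun k i => c k (i, a))))) (Fin.cons g f)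
    (by simp) hli ?_
  intro z
  funext k
  have h := congrArg (eval z) (hc k)
  rw [map_sum, Fintype.sum_prod_type] at h
  simp only [smul_eval, map_mul, eval_X] at h
  simp only [TT, LinearMap.add_apply, LinearMap.sum_apply, LinearMap.smul_apply, Finset.sum_apply, Pi.smul_apply,
    Fin.sum_univ_succ, Fin.cons_zero, Fin.cons_succ, LinearMap.id_apply, hv, LinearMap.neg_apply,
    Matrix.mulVecLin_apply, Pi.add_apply, Pi.neg_apply, Pi.zero_apply, Matrix.mulVec, dotProduct,
    Matrix.of_apply, smul_eq_mul]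
  rw [Finset.sum_comm] at h
  have h2 : ∑ a : Fin r, eval z (f a) * -∑ i : Fin n, c k (i, a) * z i =
      -(∑ a : Fin r, ∑ i : Fin n, c k (i, a) * (z i * eval z (f a))) := by
    rw [← Finset.sum_neg_distrib]
    apply Finset.sum_congr rfl
    intro a _
    rw [mul_neg, Finset.mul_sum]
    congr 1
    apply Finset.sum_congr rfl
    intro i _
    ring
  rw [h2, h]
  ring

end H72.FJ
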